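import Pool.Agent.H93.EB.Basic

/-!
# Properties of the largest correlation `M` and of its logarithmic averages: statements

Definitions are those of `Pool.Agent.H93.EB`: `cr`, `M`, `crq`, `Mq`, `phi`, `lg`, `QQ`.
-/

set_option autoImplicit false

namespace Pool.Agent.H70.EN

open Finset Pool.Agent.H6.N4D Pool.Agent.H93.EB

/-! ## One window -/

/-- MAT. The largest correlations are attained. -/
def T_MAT : Prop := ∀ (lam : ℕ → ℝ) (q N n : ℕ),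
  (∃ θ : ℝ, 0 ≤ θ ∧ θ ≤ 1 ∧ M lam N n = ‖cr lam N n θ‖) ∧
  (∀ θ : ℝ, ‖cr lam N n θ‖ ≤ M lam N n) ∧
  (∃ θ : ℝ, 0 ≤ θ ∧ θ ≤ 1 ∧ Mq lam q N n = ‖crq lam q N n θ‖) ∧
  ∀ θ : ℝ, ‖crq lam q N n θ‖ ≤ Mq lam q N n

/-- MBD. Bounds for the largest correlations. -/
def T_MBD : Prop := ∀ (lam : ℕ → ℝ) (q N n : ℕ), (∀ k, |lam k| ≤ 1) →
  0 ≤ M lam N n ∧ M lam N n ≤ 1 ∧ 0 ≤ Mq lam q N n ∧ Mq lam q N n ≤ 1 + (q : ℝ) / N

/-- CMP. Comparison of two windows. -/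
def T_CMP : Prop := ∀ (lam : ℕ → ℝ) (N n N' n' : ℕ), (∀ k, |lam k| ≤ 1) →
  (N : ℝ) * M lam N n ≤ N' * M lam N' n' + ((Ioc n (n + N) \ Ioc n' (n' + N')).card : ℝ) +
    ((Ioc n' (n' + N') \ Ioc n (n + N)).card : ℝ)

/-- SBL. The mean over the blocks of a window. -/
def T_SBL : Prop := ∀ (lam : ℕ → ℝ) (J N n : ℕ), 1 ≤ J → 1 ≤ N →
  M lam (J * N) n ≤ (∑ j ∈ range J, M lam N (n + j * N)) / J

/-- SBG. The same if the length is not a multiple. -/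
def T_SBG : Prop := ∀ (lam : ℕ → ℝ) (H N n : ℕ), (∀ k, |lam k| ≤ 1) → 1 ≤ N → N ≤ H →
  M lam H n ≤ (∑ j ∈ range (H / N), M lam N (n + j * N)) / ((H / N : ℕ) : ℝ) + (N : ℝ) / H

/-- PHI. Properties of `phi`. -/
def T_PHI : Prop := ConvexOn ℝ Set.univ phi ∧ Monotone phi ∧ (∀ x, 0 ≤ phi x) ∧
  (∀ x y, x ≤ 2 → y ≤ 2 → |phi x - phi y| ≤ 3 * |x - y|) ∧ ∀ x ≤ 1, phi x ≤ 1

/-- SCL. The multiples of a prime number `q` in a window form a window which is `q` times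
shorter. -/
def T_SCL : Prop := ∀ (lam : ℕ → ℝ) (q N n : ℕ), Lio lam → q.Prime → q ≤ N →
  |Mq lam q N n - M lam (N / q) (n / q)| ≤ 2 * q / N

/-! ## Logarithmic averages -/

/-- LG1. The sum of all weights. -/
def T_LG1 : Prop := ∀ (X : ℕ) (h : ℕ → ℝ), (∀ n, 0 ≤ h n ∧ h n ≤ 1) → 1 ≤ X →
  0 ≤ lg X h ∧ lg X h ≤ 1 + Real.log X

/-- LSH. Shifts. -/
def T_LSH : Prop := ∀ (X s : ℕ) (h : ℕ → ℝ), (∀ n, 0 ≤ h n ∧ h n ≤ 1) →
  |lg X (fun n => h (n + s)) - lg X h| ≤ 3 * (1 + Real.log (1 + s))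

/-- LDQ. Division. -/
def T_LDQ : Prop := ∀ (X q : ℕ) (h : ℕ → ℝ), 1 ≤ q → (∀ n, 0 ≤ h n ∧ h n ≤ 1) →
  |lg X (fun n => h (n / q)) - lg X h| ≤ 5 * (1 + Real.log q)

/-- QMS. The mass of the prime numbers of the level `m`. -/
def T_QMS : Prop := ∃ m₀ : ℕ, ∀ m, m₀ ≤ m →
  1 / 4 ≤ ∑ q ∈ QQ m, 1 / (q : ℝ) ∧ ∑ q ∈ QQ m, 1 / (q : ℝ) ≤ 3

/-- MNG. Convex functions of the largest correlation do not increase with the length, in the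
mean. -/
def T_MNG : Prop := ∃ C : ℝ, 0 < C ∧ ∀ (ψ : ℝ → ℝ) (X N H : ℕ) (lam : ℕ → ℝ),
  ConvexOn ℝ (Set.Icc 0 2) ψ → MonotoneOn ψ (Set.Icc 0 2) →
  (∀ x ∈ Set.Icc (0 : ℝ) 2, ∀ y ∈ Set.Icc (0 : ℝ) 2, |ψ x - ψ y| ≤ 4 * |x - y|) →
  (∀ x ∈ Set.Icc (0 : ℝ) 2, 0 ≤ ψ x ∧ ψ x ≤ 4) →
  3 ≤ X → (∀ n, |lam n| ≤ 1) → 1 ≤ N → N ≤ H →
    lg X (fun n => ψ (M lam H n)) ≤
      lg X (fun n => ψ (M lam N n)) + C * (N / H * Real.log X + Real.log H + 1)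

/-- MN1. The energy and the mean square of the largest correlation do not increase with the
length. -/
def T_MN1 : Prop := ∃ C : ℝ, 0 < C ∧ ∀ (X N H : ℕ) (lam : ℕ → ℝ), 3 ≤ X →
  (∀ n, |lam n| ≤ 1) → 1 ≤ N → N ≤ H →
    lg X (fun n => phi (M lam H n)) ≤
      lg X (fun n => phi (M lam N n)) + C * (N / H * Real.log X + Real.log H + 1) ∧
    lg X (fun n => M lam H n ^ 2) ≤
      lg X (fun n => M lam N n ^ 2) + C * (N / H * Real.log X + Real.log H + 1)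

/-- SCV. The mean energy on the multiples of `q`. -/
def T_SCV : Prop := ∃ C : ℝ, 0 < C ∧ ∀ (X q N : ℕ) (lam : ℕ → ℝ), 3 ≤ X → Lio lam → q.Prime →
  q ≤ N →
    |lg X (fun n => phi (Mq lam q N n)) - lg X (fun n => phi (M lam (N / q) n))| ≤
      C * (q / N * Real.log X + Real.log q + 1)

/-- SC1. The energy on the multiples of `q` on the short windows. -/
def T_SC1 : Prop := ∃ C : ℝ, 0 < C ∧ ∀ (X m q : ℕ) (lam : ℕ → ℝ), 3 ≤ X → Lio lam →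
  q ∈ QQ m →
    lg X (fun n => phi (M lam (2 ^ (m - m / 500)) n)) ≤
      lg X (fun n => phi (Mq lam q (2 ^ m) n)) +
        C * ((1 / 2) ^ (m / 2000) * Real.log X + m + 1)

/-- SC2. The energy on the multiples of `q` on the long windows. -/
def T_SC2 : Prop := ∃ C : ℝ, 0 < C ∧ ∀ (X m q A : ℕ) (lam : ℕ → ℝ), 3 ≤ X → Lio lam →
  2 ≤ A → q ∈ QQ m →
    lg X (fun n => phi (Mq lam q (2 ^ (A * m)) n)) ≤
      lg X (fun n => phi (M lam (2 ^ (A * m - m / 100)) n)) +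
        C * ((1 / 2) ^ (m / 2000) * Real.log X + A * m + 1)

end Pool.Agent.H70.EN
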