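import Pool.Agent.H6.TP.FIN
import Pool.Agent.H70.EN.EN2

/-!
# A constant gap for windows whose length is an iterated logarithm

The argument of FIN1 is repeated: from structure on windows of length `2 ^ k` one gets structure on
windows of length `2 ^ k'` with `k' = 2 ^ 2 ^ (k / D) - 1`, and so on.
-/

set_option autoImplicit false

open Finset Pool.Agent.H6.N4D Pool.Agent.H6.TP Filter Topology

namespace Pool.Agent.H70.EN2

open Pool.Agent.H93.EB (M phi lg ind t Str Base)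

/-- FINI. Local Fourier uniformity with a constant gap on windows whose length is an iterated
logarithm. -/
def T_FINI : Prop := ∀ i : ℕ, ∃ (c : ℝ) (X₀ : ℕ), 0 < c ∧ ∀ (X H : ℕ) (lam : ℕ → ℝ), X₀ ≤ X →
  Lio lam → Real.log^[i] (X : ℝ) ≤ H → Real.log H ≤ c * Real.log X →
    lg X (fun n => M lam H n) ≤ (2 / Real.pi - c) * Real.log X

lemma rp_le {e : ℝ} (he : 0 < e) : ∃ X₀ : ℕ, ∀ X : ℕ, X₀ ≤ X →
    2 * Real.log (X : ℝ) ^ (24 / 25 : ℝ) ≤ e * Real.log X := by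
  have h1 : Tendsto (fun X : ℕ => Real.log (X : ℝ) ^ (1 / 25 : ℝ)) atTop atTop :=
    (tendsto_rpow_atTop (by norm_num)).comp FIN.tendsto_L
  obtain ⟨X₀, h⟩ := eventually_atTop.1 ((h1.eventually (eventually_ge_atTop (2 / e))).and
    (FIN.tendsto_L.eventually (eventually_ge_atTop 1)))
  refine ⟨X₀, fun X hX => ?_⟩
  obtain ⟨a1, a2⟩ := h X hX
  rw [div_le_iff₀ he] at a1
  have hy : 0 < Real.log (X : ℝ) := by linarith
  have h3 : Real.log (X : ℝ) = Real.log X ^ (24 / 25 : ℝ) * Real.log X ^ (1 / 25 : ℝ) := by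
    rw [← Real.rpow_add hy]
    norm_num
  have h4 : 0 < Real.log (X : ℝ) ^ (24 / 25 : ℝ) := Real.rpow_pos_of_pos hy _
  calc 2 * Real.log (X : ℝ) ^ (24 / 25 : ℝ) ≤
        (Real.log (X : ℝ) ^ (1 / 25 : ℝ) * e) * Real.log (X : ℝ) ^ (24 / 25 : ℝ) := by gcongr
    _ = e * (Real.log X ^ (24 / 25 : ℝ) * Real.log X ^ (1 / 25 : ℝ)) := by ring
    _ = e * Real.log X := by rw [← h3]

/-- one round -/
lemma round (hEN : T_EN2) (hBAS : Pool.Agent.H93.EB.T_BAS) (hTPB : Pool.Agent.H93.EB.T_TOP) :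
    ∃ D : ℕ, 1 ≤ D ∧ ∀ ε' : ℝ, 0 < ε' → ∃ (ε : ℝ) (k₁ X₀ : ℕ), 0 < ε ∧ ε ≤ ε' ∧
    ∀ (X k₀ k : ℕ) (lam : ℕ → ℝ), X₀ ≤ X → Lio lam → k₁ ≤ k₀ → k₀ ≤ k →
      (k : ℝ) ≤ 2 * Real.log X ^ (24 / 25 : ℝ) → Real.log ((k : ℝ) + 1) ≤ 2 ^ (k₀ / D) →
      phi (2 / Real.pi) - ε ≤ t lam X k₀ → phi (2 / Real.pi) - ε' ≤ t lam X k := by
  obtain ⟨B, hB, h2⟩ := hEN
  refine ⟨(B + 1) * B, Nat.mul_pos (by omega) (by omega), fun ε' hε' => ?_⟩
  obtain ⟨e₂, he₂, h3⟩ := h2 (ε' / 2) (by positivity)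
  obtain ⟨δ, R, Q, hδ, h4⟩ := hBAS e₂ he₂
  obtain ⟨s₀, X₂, h5⟩ := h3 R
  obtain ⟨η, hη, h6⟩ := hTPB δ Q hδ
  obtain ⟨e₁, s₀', he₁, h7⟩ := h4 η hη
  obtain ⟨ε₃, k₀', X₃, hε₃, h8⟩ := h6 e₁ he₁
  obtain ⟨X₄, h9⟩ := rp_le he₁
  refine ⟨min ε₃ (ε' / 2), (B + 1) * (s₀ + s₀' + k₀' + 1), max X₂ (max X₃ X₄),
    lt_min hε₃ (by positivity), (min_le_right _ _).trans (by linarith),
    fun X k₀ k lam hX hl hk₁ hkk hk hlog ht => ?_⟩
  have hX2 : X₂ ≤ X := (le_max_left _ _).trans hX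
  have hX3 : X₃ ≤ X := (le_max_left _ _).trans ((le_max_right _ _).trans hX)
  have hX4 : X₄ ≤ X := (le_max_right _ _).trans ((le_max_right _ _).trans hX)
  obtain ⟨s, hs⟩ : ∃ s : ℕ, s = k₀ / (B + 1) := ⟨_, rfl⟩
  have hs1 : s₀ + s₀' + k₀' + 1 ≤ s := by
    rw [hs, Nat.le_div_iff_mul_le (by omega), mul_comm]
    exact hk₁
  have hs2 : (B + 1) * s ≤ k₀ := by
    rw [hs]
    exact Nat.mul_div_le _ _
  have hBs : s ≤ B * s := Nat.le_mul_of_pos_left s (by omega)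
  have hk' : B * s + s ≤ k₀ := by
    have : (B + 1) * s = B * s + s := by ring
    omega
  have hk0 : (k₀ : ℝ) ≤ 2 * Real.log X ^ (24 / 25 : ℝ) := le_trans (by exact_mod_cast hkk) hk
  have hStr := h8 X k₀ lam hX3 hl (by omega) hk0 (by linarith [min_le_left ε₃ (ε' / 2)])
  have hBase := h7 s k₀ X lam (by omega) (by omega) (hk0.trans (h9 X hX4)) hl.pm hStr
  have hsB : s / B = k₀ / ((B + 1) * B) := by rw [hs, Nat.div_div_eq_div_mul]
  have := h5 s X lam (by omega) hX2 hl hBase k₀ k (by omega) hkk hk (by rw [hsB]; exact hlog)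
  linarith [min_le_right ε₃ (ε' / 2)]

/-- the exponent reached in one round -/
def g (D k : ℕ) : ℕ := 2 ^ 2 ^ (k / D) - 1

lemma log_g {D k m : ℕ} (h : m ≤ g D k) : Real.log ((m : ℝ) + 1) ≤ 2 ^ (k / D) := by
  have h1 : (m : ℝ) + 1 ≤ 2 ^ 2 ^ (k / D) := by
    have h2 : m + 1 ≤ 2 ^ 2 ^ (k / D) := by
      have h3 : 0 < 2 ^ 2 ^ (k / D) := by positivity
      unfold g at h
      omega
    exact_mod_cast h2
  have h4 : Real.log ((2 : ℝ) ^ 2 ^ (k / D)) = 2 ^ (k / D) * Real.log 2 := by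
    rw [Real.log_pow]
    push_cast
    rfl
  have h5 : (0 : ℝ) < 2 ^ (k / D) := by positivity
  calc Real.log ((m : ℝ) + 1) ≤ Real.log ((2 : ℝ) ^ 2 ^ (k / D)) :=
        Real.log_le_log (by positivity) h1
    _ = 2 ^ (k / D) * Real.log 2 := h4
    _ ≤ 2 ^ (k / D) := mul_le_of_le_one_right h5.le (by linarith [Real.log_two_lt_d9])

lemma sq_le_pow : ∀ q : ℕ, 4 ≤ q → q ^ 2 ≤ 2 ^ q := by
  intro q hq
  induction q, hq using Nat.le_induction with
  | base => norm_num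
  | succ q hq ih =>
    rw [pow_succ 2 q]
    nlinarith

lemma g_big {D : ℕ} (hD : 1 ≤ D) : ∀ x : ℕ, D * (6 * D + 4) ≤ x → 2 ^ (3 * x) ≤ g D x := by
  intro x hx
  obtain ⟨q, hq⟩ : ∃ q : ℕ, q = x / D := ⟨_, rfl⟩
  have h1 : 6 * D + 4 ≤ q := by
    rw [hq, Nat.le_div_iff_mul_le (by omega), mul_comm]
    exact hx
  have h2 : x < D * (q + 1) := by
    rw [hq]
    exact Nat.lt_mul_div_succ x (by omega)
  have h3 := sq_le_pow q (by omega)
  have h4 : 3 * D * (q + 1) ≤ q ^ 2 := by nlinarith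
  have h5 : 3 * x + 1 ≤ 2 ^ q := by
    have : 3 * (x + 1) ≤ 3 * (D * (q + 1)) := by omega
    have h6 : 3 * (D * (q + 1)) = 3 * D * (q + 1) := by ring
    omega
  have h6 : 2 ^ (3 * x + 1) ≤ 2 ^ 2 ^ q := Nat.pow_le_pow_right (by norm_num) h5
  have h7 : 2 ^ (3 * x + 1) = 2 ^ (3 * x) + 2 ^ (3 * x) := by ring
  have h8 : 0 < 2 ^ (3 * x) := by positivity
  unfold g
  rw [← hq]
  omega

lemma le_g {D : ℕ} (hD : 1 ≤ D) {x : ℕ} (hx : D * (6 * D + 4) ≤ x) : x ≤ g D x := by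
  have h1 : 3 * x < 2 ^ (3 * x) := Nat.lt_two_pow_self
  have h2 := g_big hD x hx
  omega

lemma le_iter {D : ℕ} (hD : 1 ≤ D) {x : ℕ} (hx : D * (6 * D + 4) ≤ x) (j : ℕ) :
    x ≤ (g D)^[j] x := by
  induction j with
  | zero => exact le_rfl
  | succ j ih =>
    rw [Function.iterate_succ_apply']
    exact ih.trans (le_g hD (hx.trans ih))

/-- several rounds -/
lemma rounds (hEN : T_EN2) (hBAS : Pool.Agent.H93.EB.T_BAS) (hTPB : Pool.Agent.H93.EB.T_TOP) :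
    ∃ D : ℕ, 1 ≤ D ∧ ∀ (j : ℕ) (ε' : ℝ), 0 < ε' → ∃ (ε : ℝ) (k₁ X₀ : ℕ), 0 < ε ∧ ε ≤ ε' ∧
    ∀ (X k₀ k : ℕ) (lam : ℕ → ℝ), X₀ ≤ X → Lio lam → k₁ ≤ k₀ → k₀ ≤ k →
      (k : ℝ) ≤ 2 * Real.log X ^ (24 / 25 : ℝ) → k ≤ (g D)^[j] k₀ →
      phi (2 / Real.pi) - ε ≤ t lam X k₀ → phi (2 / Real.pi) - ε' ≤ t lam X k := by
  obtain ⟨D, hD, hr⟩ := round hEN hBAS hTPB
  refine ⟨D, hD, fun j => ?_⟩
  induction j with
  | zero =>
    intro ε' hε'
    refine ⟨ε', 0, 0, hε', le_rfl, fun X k₀ k lam _ _ _ h1 _ h2 h3 => ?_⟩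
    have : k = k₀ := le_antisymm h2 h1
    rw [this]
    exact h3
  | succ j ih =>
    intro ε' hε'
    obtain ⟨ε₁, k₁, X₁, hε₁, hle₁, h1⟩ := hr ε' hε'
    obtain ⟨ε₂, k₂, X₂, hε₂, hle₂, h2⟩ := ih ε₁ hε₁
    refine ⟨ε₂, max (max k₁ k₂) (D * (6 * D + 4)), max X₁ X₂, hε₂, hle₂.trans hle₁,
      fun X k₀ k lam hX hl hk₁ hkk hk hg ht => ?_⟩
    have hX1 : X₁ ≤ X := (le_max_left _ _).trans hX
    have hX2 : X₂ ≤ X := (le_max_right _ _).trans hX
    have hk1 : k₁ ≤ k₀ := (le_max_left _ _).trans ((le_max_left _ _).trans hk₁)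
    have hk2 : k₂ ≤ k₀ := (le_max_right _ _).trans ((le_max_left _ _).trans hk₁)
    have hk3 : D * (6 * D + 4) ≤ k₀ := (le_max_right _ _).trans hk₁
    rcases le_or_gt k ((g D)^[j] k₀) with h | h
    · have := h2 X k₀ k lam hX2 hl hk2 hkk hk h ht
      linarith
    · have h3 := le_iter hD hk3 j
      have h4 := h2 X k₀ ((g D)^[j] k₀) lam hX2 hl hk2 h3
        (le_trans (by exact_mod_cast h.le) hk) le_rfl ht
      rw [Function.iterate_succ_apply'] at hg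
      exact h1 X ((g D)^[j] k₀) k lam hX1 hl (hk1.trans h3) h.le hk (log_g hg) h4

lemma tendsto_il (i : ℕ) : Tendsto (fun X : ℕ => Real.log^[i] (X : ℝ)) atTop atTop := by
  induction i with
  | zero => exact tendsto_natCast_atTop_atTop
  | succ i ih =>
    have : (fun X : ℕ => Real.log^[i + 1] (X : ℝ)) = fun X : ℕ => Real.log (Real.log^[i] (X : ℝ)) := by
      funext X
      rw [Function.iterate_succ_apply']
    rw [this]
    exact Real.tendsto_log_atTop.comp ih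

lemma climb {D : ℕ} (hD : 1 ≤ D) (m : ℕ) : ∀ i : ℕ, ∀ᶠ X : ℕ in atTop, ∀ x : ℕ,
    Real.log^[m + i] (X : ℝ) ≤ 2 * x → Real.log^[i] (X : ℝ) ≤ 2 * ((g D)^[m] x : ℕ) := by
  induction m with
  | zero =>
    intro i
    refine Eventually.of_forall fun X x h => ?_
    rw [zero_add] at h
    exact h
  | succ m ih =>
    intro i
    filter_upwards [ih i, (tendsto_il (m + i)).eventually (eventually_ge_atTop 1),
      (tendsto_il (m + 1 + i)).eventually (eventually_ge_atTop ((2 * (D * (6 * D + 4)) : ℕ) : ℝ))]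
      with X h1 h2 h3 x hx
    rw [Function.iterate_succ_apply]
    apply h1
    have h4 : D * (6 * D + 4) ≤ x := by
      have h5 : ((2 * (D * (6 * D + 4)) : ℕ) : ℝ) ≤ 2 * x := h3.trans hx
      have h6 : 2 * (D * (6 * D + 4)) ≤ 2 * x := by exact_mod_cast h5
      omega
    have h5 : Real.log^[m + i] (X : ℝ) ≤ (g D x : ℕ) := by
      have h6 : Real.log^[m + 1 + i] (X : ℝ) = Real.log (Real.log^[m + i] (X : ℝ)) := by
        rw [show m + 1 + i = (m + i) + 1 by ring, Function.iterate_succ_apply']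
      rw [h6] at hx
      have h7 : Real.log^[m + i] (X : ℝ) ≤ Real.exp (2 * x) := by
        rw [← Real.log_le_iff_le_exp (by linarith)]
        exact hx
      have h8 : Real.exp (2 * x) ≤ ((2 ^ (3 * x) : ℕ) : ℝ) := by
        have h9 : Real.exp 2 ≤ 8 := by
          have h10 : Real.exp 2 = Real.exp 1 * Real.exp 1 := by
            rw [← Real.exp_add]
            norm_num
          have h11 := Real.exp_one_lt_d9
          have h12 := Real.exp_pos 1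
          rw [h10]
          nlinarith
        have h10 : Real.exp (2 * x) = Real.exp 2 ^ x := by
          rw [← Real.exp_nat_mul]
          congr 1
          ring
        rw [h10, pow_mul]
        push_cast
        exact pow_le_pow_left₀ (Real.exp_pos _).le h9 x
      refine h7.trans (h8.trans ?_)
      exact_mod_cast g_big hD x h4
    have h6 : (0 : ℝ) ≤ (g D x : ℕ) := Nat.cast_nonneg _
    linarith

lemma il_le (i : ℕ) : ∀ᶠ X : ℕ in atTop, Real.log^[i + 1] (X : ℝ) ≤ Real.log X := by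
  induction i with
  | zero => exact Eventually.of_forall fun X => le_rfl
  | succ i ih =>
    filter_upwards [ih, (tendsto_il (i + 1)).eventually (eventually_ge_atTop 1)] with X h1 h2
    rw [Function.iterate_succ_apply']
    have := Real.log_le_sub_one_of_pos (lt_of_lt_of_le one_pos h2)
    linarith

theorem pf_FINI (hEN : T_EN2) (hBAS : Pool.Agent.H93.EB.T_BAS)
    (hMON : Pool.Agent.H93.EB.T_MON) (hNEG : Pool.Agent.H93.EB.T_NEG)
    (hTPB : Pool.Agent.H93.EB.T_TOP) (hFNL : T_FNL) (hSZK : T_SZK) (hTRN : T_TRN) :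
    T_FINI := by
  obtain ⟨κ, X₁, hκ, htop⟩ := FIN.top_contra hFNL hSZK hTRN
  obtain ⟨D, hD, hrd⟩ := rounds hEN hBAS hTPB
  obtain ⟨C, hC, h3⟩ := hMON
  suffices hmain : ∀ i : ℕ, 1 ≤ i → ∃ (c : ℝ) (X₀ : ℕ), 0 < c ∧
      ∀ (X H : ℕ) (lam : ℕ → ℝ), X₀ ≤ X →
      Lio lam → Real.log^[i] (X : ℝ) ≤ H → Real.log H ≤ c * Real.log X →
      lg X (fun n => M lam H n) ≤ (2 / Real.pi - c) * Real.log X by
    intro i
    rcases Nat.eq_zero_or_pos i with h | h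
    · obtain ⟨c, X₀, hc, h1⟩ := hmain 1 le_rfl
      refine ⟨c, X₀, hc, fun X H lam hX hl hH1 hH2 => h1 X H lam hX hl ?_ hH2⟩
      rw [h] at hH1
      have h2 : (X : ℝ) ≤ H := hH1
      refine le_trans ?_ h2
      have h4 : Real.log^[1] (X : ℝ) = Real.log X := rfl
      rw [h4]
      rcases Nat.eq_zero_or_pos X with h0 | h0
      · subst h0
        simp
      · have := Real.log_le_sub_one_of_pos (show (0 : ℝ) < X by exact_mod_cast h0)
        linarith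
    · exact hmain i h
  intro i hi
  obtain ⟨ε, k₁, X₂, hε, -, hrd'⟩ := hrd i (κ / 2) (by positivity)
  obtain ⟨cN, kN, X₃, hcN, hneg⟩ := hNEG ε hε
  obtain ⟨c, hc⟩ : ∃ c : ℝ, c = min (cN / (1 + 3 * C)) 1 := ⟨_, rfl⟩
  have hc0 : 0 < c := by rw [hc]; exact lt_min (by positivity) one_pos
  have hc1 : c * (1 + 3 * C) ≤ cN := by
    calc c * (1 + 3 * C) ≤ cN / (1 + 3 * C) * (1 + 3 * C) :=
          mul_le_mul_of_nonneg_right (by rw [hc]; exact min_le_left _ _) (by positivity)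
      _ = cN := by field_simp
  have hcle : c ≤ 1 := by rw [hc]; exact min_le_right _ _
  obtain ⟨X₄, hbig⟩ := FIN.big 2 1 one_pos
  obtain ⟨X₅, hrp⟩ := rp_le (show (0 : ℝ) < 1 / 2 by norm_num)
  obtain ⟨i', hi'⟩ : ∃ i' : ℕ, i = i' + 1 := ⟨i - 1, by omega⟩
  obtain ⟨X₆, hev⟩ := eventually_atTop.1
    (((tendsto_il (i + 1)).eventually (eventually_ge_atTop
        (2 * (1 - Real.log c) + 2 * ((k₁ + kN : ℕ) : ℝ)))).and
      (((tendsto_il i).eventually (eventually_ge_atTop (1 / c))).and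
      ((FIN.tendsto_L.eventually (eventually_ge_atTop (1 / c))).and
      ((climb hD i 1).and (il_le i')))))
  refine ⟨c, X₁ + X₂ + X₃ + X₄ + X₅ + X₆, hc0, fun X H lam hX hl hH1 hH2 => ?_⟩
  obtain ⟨w1, w2, w3, w4, w5⟩ := hev X (by omega)
  obtain ⟨b1, b2, b3, b4, b5, b6, b7, b8⟩ := hbig X (by omega)
  obtain ⟨k, hka, hkb, hkc⟩ := htop X lam (by omega) hl
  by_contra hcon
  push Not at hcon
  set L : ℝ := Real.log (X : ℝ) with hLdef
  have hL0 : 0 < L := by linarith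
  obtain ⟨l, hld⟩ : ∃ l : ℝ, l = Real.log^[i] (X : ℝ) := ⟨_, rfl⟩
  have hl1 : Real.log^[i + 1] (X : ℝ) = Real.log l := by
    rw [Function.iterate_succ_apply', hld]
  rw [hl1] at w1
  rw [← hld] at w2 hH1
  rw [← hi', ← hld] at w5
  have hl0 : 0 < l := lt_of_lt_of_le (by positivity) w2
  have hcl : 1 ≤ c * l := by
    rw [div_le_iff₀ hc0] at w2
    linarith
  -- the scale
  obtain ⟨k₀, hk₀⟩ : ∃ k₀ : ℕ, k₀ = Nat.log 2 ⌊c * l⌋₊ := ⟨_, rfl⟩
  have hf1 : 1 ≤ ⌊c * l⌋₊ := (Nat.one_le_floor_iff _).2 hcl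
  have hk1 : ((2 ^ k₀ : ℕ) : ℝ) ≤ c * l := by
    have h5 : 2 ^ k₀ ≤ ⌊c * l⌋₊ := by
      rw [hk₀]
      exact Nat.pow_log_le_self 2 (by omega)
    have h6 : ((2 ^ k₀ : ℕ) : ℝ) ≤ (⌊c * l⌋₊ : ℝ) := by exact_mod_cast h5
    exact h6.trans (Nat.floor_le (by linarith))
  have hk2 : c * l ≤ ((2 : ℝ) ^ (k₀ + 1)) := by
    have h5 : ⌊c * l⌋₊ < 2 ^ (k₀ + 1) := by
      rw [hk₀]
      exact Nat.lt_pow_succ_log_self (by norm_num) _
    have h6 : ((⌊c * l⌋₊ + 1 : ℕ) : ℝ) ≤ ((2 ^ (k₀ + 1) : ℕ) : ℝ) := by exact_mod_cast h5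
    have h7 := Nat.lt_floor_add_one (c * l)
    push_cast at h6
    linarith
  have hk3 : Real.log c + Real.log l ≤ (k₀ : ℝ) + 1 := by
    rw [← Real.log_mul hc0.ne' hl0.ne']
    refine (Real.log_le_log (by positivity) hk2).trans ?_
    rw [Real.log_pow]
    push_cast
    have h5 : (0 : ℝ) < (k₀ : ℝ) + 1 := by positivity
    exact mul_le_of_le_one_right h5.le (by linarith [Real.log_two_lt_d9])
  have hk4 : Real.log l ≤ 2 * (k₀ : ℝ) := by
    have h5 : (0 : ℝ) ≤ ((k₁ + kN : ℕ) : ℝ) := Nat.cast_nonneg _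
    linarith
  have hk5 : k₁ + kN ≤ k₀ := by
    have hlc : Real.log c ≤ 0 := Real.log_nonpos hc0.le hcle
    have h50 : (0 : ℝ) ≤ ((k₁ + kN : ℕ) : ℝ) := Nat.cast_nonneg _
    have h5 : ((k₁ + kN : ℕ) : ℝ) ≤ k₀ := by linarith
    exact_mod_cast h5
  -- upper bound for the scale
  have hk6 : (k₀ : ℝ) ≤ 2 * Real.log L := by
    have h5 : ((2 : ℝ) ^ k₀) ≤ L := by
      have h6 : ((2 ^ k₀ : ℕ) : ℝ) = (2 : ℝ) ^ k₀ := by push_cast; rfl
      rw [← h6]
      refine hk1.trans (le_trans ?_ w5)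
      exact mul_le_of_le_one_left hl0.le hcle
    have h6 := Real.log_le_log (by positivity) h5
    rw [Real.log_pow] at h6
    have h7 := Real.log_two_gt_d9
    have h8 : (0 : ℝ) ≤ k₀ := Nat.cast_nonneg _
    nlinarith
  have hHpos : (0 : ℝ) < H := lt_of_lt_of_le hl0 hH1
  have hNH : ((2 ^ k₀ : ℕ) : ℝ) ≤ c * H := hk1.trans (mul_le_mul_of_nonneg_left hH1 hc0.le)
  have hNH' : 2 ^ k₀ ≤ H := by
    have : ((2 ^ k₀ : ℕ) : ℝ) ≤ H := hNH.trans (by
      calc c * (H : ℝ) ≤ 1 * H := mul_le_mul_of_nonneg_right hcle hHpos.le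
        _ = H := one_mul _)
    exact_mod_cast this
  have hmon := h3 X (2 ^ k₀) H lam b8 (fun n => lio_abs hl n) Nat.one_le_two_pow hNH'
  have hratio : ((2 ^ k₀ : ℕ) : ℝ) / H ≤ c := by
    rw [div_le_iff₀ hHpos]
    exact hNH
  have h1c : 1 ≤ c * L := by
    rw [div_le_iff₀ hc0] at w3
    linarith
  have hlow : (2 / Real.pi - cN) * L ≤ lg X (fun n => M lam (2 ^ k₀) n) := by
    have h5 : ((2 ^ k₀ : ℕ) : ℝ) / H * L + Real.log H + 1 ≤ 3 * c * L := by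
      have h50 := mul_le_mul_of_nonneg_right hratio hL0.le
      linarith
    have h6 : C * (((2 ^ k₀ : ℕ) : ℝ) / H * L + Real.log H + 1) ≤ C * (3 * c * L) :=
      mul_le_mul_of_nonneg_left h5 hC.le
    have h7 : (2 / Real.pi - c) * L - C * (3 * c * L) ≤ lg X (fun n => M lam (2 ^ k₀) n) := by
      linarith
    have h8 : (2 / Real.pi - cN) * L ≤ (2 / Real.pi - c) * L - C * (3 * c * L) := by
      have : (c * (1 + 3 * C)) * L ≤ cN * L := mul_le_mul_of_nonneg_right hc1 hL0.le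
      linarith
    exact h8.trans h7
  have ht := hneg X k₀ lam (by omega) hl (by omega) (hk6.trans b6) hlow
  have hkk : k₀ ≤ k := by
    have : (k₀ : ℝ) ≤ k := hk6.trans (b5.trans hkb)
    exact_mod_cast this
  have hg : k ≤ (g D)^[i] k₀ := by
    have h5 := w4 k₀ (by rw [hl1]; exact hk4)
    have h6 : Real.log^[1] (X : ℝ) = L := rfl
    rw [h6] at h5
    have h7 := hrp X (by omega)
    have h8 : (k : ℝ) ≤ ((g D)^[i] k₀ : ℕ) := by
      have := hka.trans h7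
      linarith
    exact_mod_cast h8
  have hfin := hrd' X k₀ k lam (by omega) hl (by omega) hkk hka hg ht
  linarith

end Pool.Agent.H70.EN2
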