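import Pool.Agent.H6.TP.Fin1
import Pool.Agent.H70.EN.FINI

/-!
# A constant gap for windows whose length is an iterated logarithm: without hypotheses
-/

set_option autoImplicit false

namespace Pool.Agent.H70.EN2

open Pool.Agent.H6.TP.All Pool.Agent.H72.EN

theorem tEN2 : T_EN2 :=
  pf_EN2 tel Pool.Agent.H62.ENL.pf_KCH pf_HAR' Pool.Agent.H35.ENL.pf_GSM
    pf_LIM' Pool.Agent.H67.ENL.pf_MN2 Pool.Agent.H46.ENL.pf_FAI
    Pool.Agent.H91.ENL.pf_TBD Pool.Agent.H38.EL.pf_BAB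
    (Pool.Agent.H38.EL.pf_CHN Pool.Agent.H38.EL.pf_BAB Pool.Agent.H3.BES.bes) lev

theorem fini : T_FINI :=
  pf_FINI tEN2 Pool.Agent.H84.BAS.pf_BAS Pool.Agent.H6.TP.Fin1.tMON tNEG tTPB tFNL tSZK tTRN

end Pool.Agent.H70.EN2
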