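import Pool.Agent.H70.EN.STG3
import Pool.Agent.H72.EN.Targets3

/-!
# Adapter: the two forms of EN3
-/

set_option autoImplicit false

namespace Pool.Agent.H70.EN2

open Pool.Agent.H6.N4D

theorem en3_of (h : Pool.Agent.H72.EN.T_EN3) : T_EN3 := by
  obtain ⟨B, hB, h⟩ := h
  refine ⟨B + 4, by omega, fun ε hε => ?_⟩
  obtain ⟨e, he, h⟩ := h ε hε
  refine ⟨e, he, fun R => ?_⟩
  obtain ⟨s₀, h⟩ := h R
  refine ⟨s₀, fun s hs => ?_⟩
  obtain ⟨X₀, h⟩ := h s hs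
  refine ⟨X₀, fun X lam hX hl hb k₀ k h1 h2 h3 => h X lam hX hl hb k₀ k ?_ h2 ?_⟩
  · have : B * s ≤ (B + 4) * s := Nat.mul_le_mul_right _ (by omega)
    exact this.trans h1
  · refine le_trans ?_ h3
    have h4 : (16 : ℝ) ^ k = 2 ^ (4 * k) := by
      rw [pow_mul]
      norm_num
    rw [h4]
    exact pow_le_pow_right₀ (by norm_num) (Nat.mul_le_mul_right _ (by omega))

end Pool.Agent.H70.EN2
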