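import Pool.Agent.H93.EN.Targets4
import Pool.Agent.H26.BL.B2

/-!
# Crossing a side (INC)
-/

namespace Pool.Agent.H70.EN

open MeasureTheory Set Metric Filter Topology Pool.Agent.H93.EN
open Pool.Agent.H93.BL hiding T_B1 T_B2 T_B3 T_SB T_SC

/-- inner points of sides do not belong to the table -/
lemma side_notMem {ι : Type} (P : Polygon ι) (j : ι) {x : ℂ}
    (hx : x ∈ openSegment ℝ (P.p j) (P.q j)) : x ∉ P.Ω := by
  intro h
  have h1 : x ∈ frontier P.Ω := by
    rw [P.frontier_eq]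
    exact mem_iUnion.2 ⟨j, openSegment_subset_segment _ _ _ hx⟩
  rw [P.isOpen.frontier_eq] at h1
  exact h1.2 h

/-- one direction of the crossing -/
lemma cross_aux (h1 : T_RF) (h2 : T_RUH) {ι : Type} (P : Polygon ι) (E : Set ι) (U : Set ℂ)
    (hU : U ⊆ P.Ω) (j : ι) (z w w' : ℂ) (t s : ℝ) (hw : ‖w‖ = 1) (hw' : w' = P.refl j w)
    (ht : 0 < t) (hs : 0 < s) (hn : ip w (P.n j) < 0)
    (hz : z ∈ openSegment ℝ (P.p j) (P.q j))
    (hy : ∀ r ∈ Ioc 0 t, z - (r : ℂ) * w ∈ P.Ω) (hy' : ∀ r ∈ Ioc 0 s, z + (r : ℂ) * w' ∈ P.Ω) :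
    (RU P E U (z + (s : ℂ) * w') w' → RU P E U (z - (t : ℂ) * w) w) ∧
    (RU P E U (z - (t : ℂ) * w) w →
      RU P E U (z + (s : ℂ) * w') w' ∨ RU P E U (z + (s : ℂ) * w') (-w')) := by
  have hzO : z ∉ P.Ω := side_notMem P j hz
  have hnw' : ‖w'‖ = 1 := by rw [hw', P.norm_refl, hw]
  have hn' : 0 < ip w' (P.n j) := by rw [hw', P.ip_refl_n]; linarith
  have hback : P.refl j w' = w := by rw [hw', P.refl_refl]
  obtain ⟨s₁, φ₁, hp1, hpos1, hdir1⟩ :=
    Pool.Agent.H26.BL.B2.b2 ι P j z w' ⟨hz, hnw', hn'⟩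
  obtain ⟨s₂, φ₂, hp2, hpos2, hdir2⟩ :=
    Pool.Agent.H26.BL.B2.b2 ι P j z (-w) ⟨hz, by rw [norm_neg, hw], by
      rw [ip_neg_left]; linarith⟩
  -- reaching from `z - t w`
  have e1 : RU P E U (z - (t : ℂ) * w) w ↔
      Sg P U (z - (t : ℂ) * w) w ∨ PR P E U (j, s₁, φ₁) := by
    refine h2 ι P E U _ w t (j, s₁, φ₁) hp1 ht ?_ ?_ ?_
    · rw [hpos1]; ring
    · intro r hr
      have := hy (t - r) ⟨by linarith [hr.2], by linarith [hr.1]⟩
      have e : z - (t : ℂ) * w + (r : ℂ) * w = z - ((t - r : ℝ) : ℂ) * w := by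
        push_cast; ring
      rw [e]; exact this
    · rw [hdir1, hw']
  -- reaching from `z + s w'` backwards
  have e2 : RU P E U (z + (s : ℂ) * w') (-w') ↔
      Sg P U (z + (s : ℂ) * w') (-w') ∨ PR P E U (j, s₂, φ₂) := by
    refine h2 ι P E U _ (-w') s (j, s₂, φ₂) hp2 hs ?_ ?_ ?_
    · rw [hpos2]; ring
    · intro r hr
      have := hy' (s - r) ⟨by linarith [hr.2], by linarith [hr.1]⟩
      have e : z + (s : ℂ) * w' + (r : ℂ) * (-w') = z + ((s - r : ℝ) : ℂ) * w' := by
        push_cast; ring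
      rw [e]; exact this
    · rw [hdir2, P.refl_neg, hback]
  refine ⟨fun h => ?_, fun h => ?_⟩
  · have h3 : RU P E U z w' := (h1 ι P E U z w' s hs hnw' hy').1 h
    refine e1.2 (Or.inr ?_)
    rcases h3 with h3 | ⟨z₂, hz2, ⟨t₂, ht2, hpz2, hr2⟩, hd2, z₃, hc3, hE3⟩
    · refine ⟨_, Relation.ReflTransGen.refl, Or.inr ?_⟩
      rw [hpos1, hdir1]; exact h3
    · refine ⟨z₃, Relation.ReflTransGen.head ?_ hc3, hE3⟩
      refine ⟨hp1, hz2, t₂, ht2, ?_, ?_, ?_⟩
      · rw [hpos1, hdir1]; exact hpz2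
      · rw [hpos1, hdir1]; exact hr2
      · rw [hdir1]; exact hd2
  · rcases e1.1 h with ⟨r, hr0, hrU, hrO⟩ | ⟨z₃, hc3, hE3⟩
    · -- the ray meets `U` before the side
      have hrt : r < t := by
        by_contra hcon
        push Not at hcon
        have := hrO t ⟨ht, hcon⟩
        rw [sub_add_cancel] at this
        exact hzO this
      refine Or.inr (e2.2 (Or.inr ⟨_, Relation.ReflTransGen.refl, Or.inr ?_⟩))
      rw [hpos2, hdir2]
      refine ⟨t - r, by linarith, ?_, ?_⟩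
      · have e : z + ((t - r : ℝ) : ℂ) * (-w) = z - (t : ℂ) * w + (r : ℂ) * w := by
          push_cast; ring
        rw [e]; exact hrU
      · intro r' hr'
        have := hy r' ⟨hr'.1, by linarith [hr'.2]⟩
        have e : z + (r' : ℂ) * (-w) = z - (r' : ℂ) * w := by ring
        rw [e]; exact this
    · rcases Relation.ReflTransGen.cases_head hc3 with hc | ⟨z₂, hst, hc⟩
      · subst hc
        rcases hE3 with hE3 | hE3
        · exact Or.inr (e2.2 (Or.inr ⟨_, Relation.ReflTransGen.refl, Or.inl hE3⟩))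
        · rw [hpos1, hdir1] at hE3
          obtain ⟨r, hr0, hrU, hrO⟩ := hE3
          have hr1 : 0 < r := by
            rcases hr0.lt_or_eq with h0 | h0
            · exact h0
            · exfalso
              rw [← h0] at hrU
              apply hzO
              apply hU
              simpa using hrU
          rcases le_or_gt s r with hsr | hsr
          · refine Or.inl (Or.inl ⟨r - s, by linarith, ?_, ?_⟩)
            · have e : z + (s : ℂ) * w' + ((r - s : ℝ) : ℂ) * w' = z + (r : ℂ) * w' := by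
                push_cast; ring
              rw [e]; exact hrU
            · intro r' hr'
              have := hrO (s + r') ⟨by linarith [hr'.1], by linarith [hr'.2]⟩
              have e : z + (s : ℂ) * w' + (r' : ℂ) * w' = z + ((s + r' : ℝ) : ℂ) * w' := by
                push_cast; ring
              rw [e]; exact this
          · refine Or.inr (Or.inl ⟨s - r, by linarith, ?_, ?_⟩)
            · have e : z + (s : ℂ) * w' + ((s - r : ℝ) : ℂ) * (-w') = z + (r : ℂ) * w' := by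
                push_cast; ring
              rw [e]; exact hrU
            · intro r' hr'
              have := hy' (s - r') ⟨by linarith [hr'.2], by linarith [hr'.1]⟩
              have e : z + (s : ℂ) * w' + (r' : ℂ) * (-w') = z + ((s - r' : ℝ) : ℂ) * w' := by
                push_cast; ring
              rw [e]; exact this
      · obtain ⟨-, hz2, t₂, ht2, hpz2, hr2, hd2⟩ := hst
        rw [hpos1, hdir1] at hpz2
        rw [hdir1] at hd2
        have hst2 : s < t₂ := by
          by_contra hcon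
          push Not at hcon
          have := hy' t₂ ⟨ht2, hcon⟩
          rw [← hpz2] at this
          exact side_notMem P z₂.1 (P.pos_mem hz2) this
        refine Or.inl (Or.inr ⟨z₂, hz2, ⟨t₂ - s, by linarith, ?_, ?_⟩, hd2, z₃, hc, hE3⟩)
        · rw [hpz2]; push_cast; ring
        · intro r hr
          have := hr2 (s + r) ⟨by linarith [hr.1], by linarith [hr.2]⟩
          rw [hpos1, hdir1] at this
          have e : z + (s : ℂ) * w' + (r : ℂ) * w' = z + ((s + r : ℝ) : ℂ) * w' := by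
            push_cast; ring
          rw [e]; exact this

/-- crossing a side -/
theorem inc (h1 : T_RF) (h2 : T_RUH) : T_INC := by
  intro ι P E U hU j y w t s hw ht hs hn hy hz hy'
  obtain ⟨z, hzdef⟩ : ∃ z, z = y + (t : ℂ) * w := ⟨_, rfl⟩
  obtain ⟨w', hw'⟩ : ∃ w', w' = P.refl j w := ⟨_, rfl⟩
  have hyz : y = z - (t : ℂ) * w := by rw [hzdef]; ring
  rw [← hzdef] at hz hy' ⊢
  rw [← hw'] at hy' ⊢
  have hback : P.refl j w' = w := by rw [hw', P.refl_refl]
  have hnw' : ‖w'‖ = 1 := by rw [hw', P.norm_refl, hw]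
  have hA : ∀ r ∈ Ioc 0 t, z - (r : ℂ) * w ∈ P.Ω := by
    intro r hr
    have := hy (t - r) ⟨by linarith [hr.2], by linarith [hr.1]⟩
    have e : z - (r : ℂ) * w = y + ((t - r : ℝ) : ℂ) * w := by
      rw [hzdef]; push_cast; ring
    rw [e]; exact this
  obtain ⟨a1, a2⟩ := cross_aux h1 h2 P E U hU j z w w' t s hw hw' ht hs hn hz hA hy'
  obtain ⟨b1, b2⟩ := cross_aux h1 h2 P E U hU j z (-w') (-w) s t (by rw [norm_neg, hnw'])
    (by rw [P.refl_neg, hback]) hs ht
    (by rw [ip_neg_left, hw', P.ip_refl_n]; linarith) hz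
    (by
      intro r hr
      have e : z - (r : ℂ) * (-w') = z + (r : ℂ) * w' := by ring
      rw [e]; exact hy' r hr)
    (by
      intro r hr
      have e : z + (r : ℂ) * (-w) = z - (r : ℂ) * w := by ring
      rw [e]; exact hA r hr)
  have e1 : z + (t : ℂ) * (-w) = y := by rw [hyz]; ring
  have e2 : z - (s : ℂ) * (-w') = z + (s : ℂ) * w' := by ring
  rw [e1, e2] at b1 b2
  rw [neg_neg] at b2
  rw [← hyz] at a1 a2
  have hyO : y ∈ P.Ω := by
    have := hy 0 ⟨le_rfl, ht⟩
    simpa using this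
  have hyO' : z + (s : ℂ) * w' ∈ P.Ω := hy' s ⟨hs, le_rfl⟩
  have hiff : (z + (s : ℂ) * w' ∈ P.Ω ∧ ‖w'‖ = 1 ∧ ¬ RU P E U (z + (s : ℂ) * w') w' ∧
      ¬ RU P E U (z + (s : ℂ) * w') (-w')) ↔
      (y ∈ P.Ω ∧ ‖w‖ = 1 ∧ ¬ RU P E U y w ∧ ¬ RU P E U y (-w)) := by
    constructor
    · rintro ⟨-, -, c1, c2⟩
      refine ⟨hyO, hw, fun h => ?_, fun h => c2 (b1 h)⟩
      rcases a2 h with h | h
      · exact c1 h
      · exact c2 h
    · rintro ⟨-, -, c1, c2⟩
      refine ⟨hyO', hnw', fun h => c1 (a1 h), fun h => ?_⟩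
      rcases b2 h with h | h
      · exact c2 h
      · exact c1 h
  by_cases hc : y ∈ P.Ω ∧ ‖w‖ = 1 ∧ ¬ RU P E U y w ∧ ¬ RU P E U y (-w)
  · simp only [FE]
    rw [if_pos hc, if_pos (hiff.2 hc)]
  · simp only [FE]
    rw [if_neg hc, if_neg (fun h => hc (hiff.1 h))]

end Pool.Agent.H70.EN
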